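import Mathlib
import Pool.Agent.T9h86.SymUp.Limit

/-!
# Unfolded formulas: symbols of Frege proofs
-/

set_option autoImplicit false

namespace Pool.Agent.T9h21.SE

open Equiv
open Pool.Agent.T9h47.SF Pool.Agent.T9h47.SG

/-- The number of symbols (variables, negations, conjunctions, disjunctions) of the formula at the
node `g` of the circuit, written as a formula without sharing. -/
noncomputable def unf {V : Type} (P : Pf V) (g : P.G) : ℕ :=
  match hg : P.gate g with
  | .var _ => 1
  | .neg h => 1 + unf P h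
  | .conj S => 1 + ∑ h ∈ S.attach, unf P h.1
  | .disj S => 1 + ∑ h ∈ S.attach, unf P h.1
termination_by P.grank g
decreasing_by
  · exact P.grank_lt g h (by rw [hg]; exact rfl)
  · exact P.grank_lt g h.1 (by rw [hg]; exact h.2)
  · exact P.grank_lt g h.1 (by rw [hg]; exact h.2)

/-- One symbol for the formula itself, and `w h` symbols for each immediate subformula `h`. -/
def usize {V G : Type} (w : G → ℕ) : Gt V G → ℕ
  | .var _ => 1
  | .neg h => 1 + w h
  | .conj S => 1 + ∑ h ∈ S, w h
  | .disj S => 1 + ∑ h ∈ S, w h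

/-- `w g` is, for each node `g`, the number of symbols (variables, negations, conjunctions,
disjunctions) of the formula at `g` written out without sharing; as the circuit is acyclic, `w` is
determined by this condition. -/
def Unfolded {V : Type} (P : Pf V) (w : P.G → ℕ) : Prop :=
  ∀ g, w g = usize w (P.gate g)

/-- The number of symbols of all sequents of the proof if the formula at the node `g` has `w g`
symbols; a sequent itself counts as one symbol. -/
def symbols {V : Type} (P : Pf V) (w : P.G → ℕ) : ℕ :=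
  letI := P.finL
  ∑ l : P.L, (1 + ∑ g ∈ P.left l, w g + ∑ g ∈ P.right l, w g)

theorem unfolded_unf {V : Type} (P : Pf V) : Unfolded P (unf P) := by
  intro g
  rw [unf]
  split
  · rename_i v hg
    rw [hg]; rfl
  · rename_i h hg
    rw [hg]; rfl
  · rename_i S hg
    rw [hg]
    show 1 + ∑ h ∈ S.attach, unf P h.1 = 1 + ∑ h ∈ S, unf P h
    rw [Finset.sum_attach S (fun h => unf P h)]
  · rename_i S hg
    rw [hg]
    show 1 + ∑ h ∈ S.attach, unf P h.1 = 1 + ∑ h ∈ S, unf P h
    rw [Finset.sum_attach S (fun h => unf P h)]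

/-- the number of immediate subformulas -/
def deg {V G : Type} : Gt V G → ℕ
  | .var _ => 0
  | .neg _ => 1
  | .conj S => S.card
  | .disj S => S.card

theorem unf_le {V : Type} (P : Pf V) (d : ℕ) (hd : ∀ g, deg (P.gate g) ≤ d) :
    ∀ (n : ℕ) (g : P.G), P.grank g = n → unf P g ≤ (d + 1) ^ n := by
  intro n
  induction n using Nat.strong_induction_on with
  | _ n ih =>
    intro g hn
    have key : ∀ h ∈ (P.gate g).kids, 1 ≤ n ∧ unf P h ≤ (d + 1) ^ (n - 1) := by
      intro h hh
      have h1 := P.grank_lt g h hh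
      have h2 := ih (P.grank h) (by omega) h rfl
      exact ⟨by omega, h2.trans (Nat.pow_le_pow_right (by omega) (by omega))⟩
    have fin : ∀ t, 1 ≤ n → t ≤ d * (d + 1) ^ (n - 1) → 1 + t ≤ (d + 1) ^ n := by
      intro t h1 h2
      obtain ⟨m, rfl⟩ : ∃ m, n = m + 1 := ⟨n - 1, by omega⟩
      rw [Nat.add_sub_cancel] at h2
      have h3 : 1 ≤ (d + 1) ^ m := Nat.one_le_pow _ _ (by omega)
      calc 1 + t ≤ (d + 1) ^ m + d * (d + 1) ^ m := by omega
        _ = (d + 1) ^ (m + 1) := by ring
    have h0 : 1 ≤ (d + 1) ^ n := Nat.one_le_pow _ _ (by omega)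
    have hd' := hd g
    have sum : ∀ S : Finset P.G, (∀ h ∈ S, h ∈ (P.gate g).kids) → S.card ≤ d →
        1 + ∑ h ∈ S.attach, unf P h.1 ≤ (d + 1) ^ n := by
      intro S hS hc
      rcases S.eq_empty_or_nonempty with rfl | ⟨a, ha⟩
      · simpa using h0
      · refine fin _ (key a (hS a ha)).1 ?_
        calc ∑ h ∈ S.attach, unf P h.1 ≤ ∑ _h ∈ S.attach, (d + 1) ^ (n - 1) :=
              Finset.sum_le_sum fun h _ => (key h.1 (hS h.1 h.2)).2
          _ = S.card * (d + 1) ^ (n - 1) := by simp
          _ ≤ d * (d + 1) ^ (n - 1) := Nat.mul_le_mul_right _ hc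
    rw [unf]
    split
    · exact h0
    · rename_i h hg
      rw [hg] at hd'
      have h1 := key h (by rw [hg]; exact rfl)
      refine fin _ h1.1 (h1.2.trans ?_)
      have : 1 ≤ d := hd'
      exact Nat.le_mul_of_pos_left _ this
    · rename_i S hg
      rw [hg] at hd'
      exact sum S (fun h hh => by rw [hg]; exact hh) hd'
    · rename_i S hg
      rw [hg] at hd'
      exact sum S (fun h hh => by rw [hg]; exact hh) hd'

end Pool.Agent.T9h21.SE
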