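import Mathlib
import Pool.Agent.T9h21.SE.Unf

/-!
# Sentences without infinite models have symmetric Frege refutations of polynomial size
-/

set_option autoImplicit false

namespace Pool.Agent.T9h21.SE

open Equiv
open Pool.Agent.T9h47.SF Pool.Agent.T9h47.SG Pool.Agent.T9h86.SymUp
open Classical

variable {R : Type} {ar : R → ℕ} {S : Finset (Σ m, Fml ar m)}

theorem deg_gate (hS : Closed S) {B : Type} [Fintype B] (g : Node S B) :
    deg (gate hS g.1.1 g.1.2 g.2) ≤ Fintype.card B + 2 := by
  obtain ⟨⟨⟨m, f⟩, hf⟩, b⟩ := g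
  cases f with
  | rel r x => exact Nat.zero_le _
  | eq i j =>
    show deg (if b i = b j then .conj ∅ else .disj ∅ : Gt (Vr ar B) (Node S B)) ≤ _
    split_ifs <;> simp [deg]
  | neg f =>
    show 1 ≤ _
    omega
  | and f f' =>
    show Finset.card {kid hS f (hS.and1 hf) b, kid hS f' (hS.and2 hf) b} ≤ _
    have := Finset.card_le_two (a := kid hS f (hS.and1 hf) b) (b := kid hS f' (hS.and2 hf) b)
    omega
  | all f =>
    show Finset.card (Finset.univ.image fun c =>
      kid hS f (hS.all hf) (Fin.snoc (α := fun _ => B) b c)) ≤ _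
    have := Finset.card_image_le (s := (Finset.univ : Finset B))
      (f := fun c => kid hS f (hS.all hf) (Fin.snoc (α := fun _ => B) b c))
    rw [Finset.card_univ] at this
    omega

theorem upper {R : Type} {ar : R → ℕ} (φ : Fml ar 0)
    (hno : ∀ (A : Type) [Infinite A] (I : ∀ r, (Fin (ar r) → A) → Prop), ¬ φ.Sat I Fin.elim0) :
    ∃ C : ℕ, ∀ (B : Type) [Fintype B] [DecidableEq B], C ≤ Fintype.card B →
      ∃ P : Pf (Vr ar B), RefutesFml P φ ∧ SymOn P Finset.univ ∧ (∀ g, P.grank g ≤ C) ∧
        P.size ≤ Fintype.card B ^ C ∧ symbols P (unf P) ≤ Fintype.card B ^ C := by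
  obtain ⟨S, hS, hφ⟩ := exists_closed φ
  obtain ⟨k, hk, hded⟩ := exists_ded hS hφ hno
  set M := S.sup fun p => p.1 with hM
  set D := S.sup fun p => rk p.2 with hD
  set N := 2 ^ Fintype.card (Node S (Fin k)) * 2 ^ Fintype.card (Node S (Fin k)) with hN
  refine ⟨2 * S.card + N + M + k + 2 * D + 5, fun B _ _ hB => ?_⟩
  have hB1 : 1 ≤ Fintype.card B := by omega
  have htop : ∀ σ : Perm B, Node.map σ (kid hS φ hφ Fin.elim0 : Node S B) =
      kid hS φ hφ Fin.elim0 := by
    intro σ
    rw [kid_map]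
    congr 1
    funext i
    exact i.elim0
  have hrk : ∀ g : Node S B, rk g.1.1.2 ≤ D := fun g =>
    Finset.le_sup (f := fun p : Σ m, Fml ar m => rk p.2) g.1.2
  refine ⟨prf hS k (kid hS φ hφ Fin.elim0), ⟨fun l => ?_, ?_⟩, ?_, fun g => ?_, ?_, ?_⟩
  · rcases prf_rule l with h | h
    · exact Or.inl ⟨_, h, prf_rep hS k _ φ hφ _⟩
    · exact Or.inr h
  · obtain ⟨l, hl, h1, h2⟩ := hded B (by omega)
    refine ⟨⟨l, hl⟩, ?_, ?_⟩
    · exact Finset.eq_empty_of_forall_notMem fun a ha => h1 a ha
    · exact Finset.eq_empty_of_forall_notMem fun a ha => h2 a ha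
  · intro σ _
    exact prf_sym htop σ
  · exact (hrk g).trans (by omega)
  · have e1 : (prf hS k (kid hS φ hφ Fin.elim0 : Node S B)).size ≤
        Fintype.card (Node S B) + Fintype.card (Sq S B k) := by
      show @Fintype.card (Node S B) _ + @Fintype.card {l : Sq S B k // Drv hS _ l} _ ≤ _
      exact Nat.add_le_add (le_of_eq (by congr)) (Fintype.card_subtype_le _)
    have e2 : Fintype.card (Sq S B k) = Fintype.card B ^ k * N := by
      rw [Fintype.card_prod, Fintype.card_prod, Fintype.card_fun, Fintype.card_fin,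
        Fintype.card_finset, hN]
    have e3 := card_node S hB1
    set b := Fintype.card B with hb
    calc (prf hS k (kid hS φ hφ Fin.elim0 : Node S B)).size
        ≤ S.card * b ^ M + b ^ k * N := by
          rw [e2] at e1; exact e1.trans (Nat.add_le_add_right e3 _)
      _ ≤ S.card * b ^ (M + k) + b ^ (M + k) * N := by
          refine Nat.add_le_add (Nat.mul_le_mul_left _ (Nat.pow_le_pow_right hB1 (by omega)))
            (Nat.mul_le_mul_right _ (Nat.pow_le_pow_right hB1 (by omega)))
      _ = (S.card + N) * b ^ (M + k) := by ring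
      _ ≤ b * b ^ (M + k) := Nat.mul_le_mul_right _ (by omega)
      _ = b ^ (M + k + 1) := by rw [pow_succ]; ring
      _ ≤ b ^ (2 * S.card + N + M + k + 2 * D + 5) := Nat.pow_le_pow_right hB1 (by omega)
  · set b := Fintype.card B with hb
    have hunf : ∀ g : Node S B,
        unf (prf hS k (kid hS φ hφ Fin.elim0 : Node S B)) g ≤ (b + 3) ^ D := by
      intro g
      have h := unf_le (prf hS k (kid hS φ hφ Fin.elim0 : Node S B)) (b + 2)
        (fun g => deg_gate hS g) _ g rfl
      have h' : (b + 2 + 1) ^ ((prf hS k (kid hS φ hφ Fin.elim0 : Node S B)).grank g) ≤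
          (b + 2 + 1) ^ D := Nat.pow_le_pow_right (by omega) (hrk g)
      exact h.trans h'
    have hsum : ∀ T : Finset (Node S B),
        ∑ g ∈ T, unf (prf hS k (kid hS φ hφ Fin.elim0 : Node S B)) g ≤
          Fintype.card (Node S B) * (b + 3) ^ D := by
      intro T
      calc ∑ g ∈ T, unf (prf hS k (kid hS φ hφ Fin.elim0 : Node S B)) g
          ≤ ∑ _g ∈ T, (b + 3) ^ D := Finset.sum_le_sum fun g _ => hunf g
        _ = T.card * (b + 3) ^ D := by simp
        _ ≤ Fintype.card (Node S B) * (b + 3) ^ D :=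
            Nat.mul_le_mul_right _ (Finset.card_le_univ T)
    have e1 : symbols (prf hS k (kid hS φ hφ Fin.elim0 : Node S B)) (unf _) ≤
        Fintype.card (Sq S B k) * (1 + 2 * (Fintype.card (Node S B) * (b + 3) ^ D)) := by
      show ∑ l : {l : Sq S B k // Drv hS _ l}, _ ≤ _
      calc ∑ l : {l : Sq S B k // Drv hS (kid hS φ hφ Fin.elim0 : Node S B) l},
            (1 + ∑ g ∈ lft l.1, unf (prf hS k (kid hS φ hφ Fin.elim0 : Node S B)) g +
              ∑ g ∈ rgt l.1, unf (prf hS k (kid hS φ hφ Fin.elim0 : Node S B)) g)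
          ≤ ∑ _l : {l : Sq S B k // Drv hS (kid hS φ hφ Fin.elim0 : Node S B) l},
            (1 + 2 * (Fintype.card (Node S B) * (b + 3) ^ D)) := by
            refine Finset.sum_le_sum fun l _ => ?_
            have h1 := hsum (lft l.1)
            have h2 := hsum (rgt l.1)
            omega
        _ = Fintype.card {l : Sq S B k // Drv hS (kid hS φ hφ Fin.elim0 : Node S B) l} *
            (1 + 2 * (Fintype.card (Node S B) * (b + 3) ^ D)) := by simp
        _ ≤ _ := Nat.mul_le_mul_right _ (Fintype.card_subtype_le _)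
    have e2 : Fintype.card (Sq S B k) = b ^ k * N := by
      rw [Fintype.card_prod, Fintype.card_prod, Fintype.card_fun, Fintype.card_fin,
        Fintype.card_finset, hN]
    have e3 := card_node S hB1
    have e4 : (b + 3) ^ D ≤ b ^ (2 * D) := by
      rw [pow_mul]
      refine Nat.pow_le_pow_left ?_ D
      nlinarith
    have e5 : 1 + 2 * (Fintype.card (Node S B) * (b + 3) ^ D) ≤ b * b ^ (M + 2 * D) := by
      have h1 : Fintype.card (Node S B) * (b + 3) ^ D ≤ S.card * b ^ (M + 2 * D) := by
        calc Fintype.card (Node S B) * (b + 3) ^ D ≤ (S.card * b ^ M) * b ^ (2 * D) :=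
              Nat.mul_le_mul e3 e4
          _ = S.card * b ^ (M + 2 * D) := by rw [pow_add]; ring
      have h2 : 1 ≤ b ^ (M + 2 * D) := Nat.one_le_pow _ _ (by omega)
      have h3 : (2 * S.card + 1) * b ^ (M + 2 * D) ≤ b * b ^ (M + 2 * D) :=
        Nat.mul_le_mul_right _ (by omega)
      calc 1 + 2 * (Fintype.card (Node S B) * (b + 3) ^ D)
          ≤ b ^ (M + 2 * D) + 2 * (S.card * b ^ (M + 2 * D)) := by omega
        _ = (2 * S.card + 1) * b ^ (M + 2 * D) := by ring
        _ ≤ _ := h3
    calc symbols (prf hS k (kid hS φ hφ Fin.elim0 : Node S B)) (unf _)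
        ≤ (b ^ k * N) * (b * b ^ (M + 2 * D)) := by
          rw [e2] at e1
          exact e1.trans (Nat.mul_le_mul_left _ e5)
      _ ≤ (b ^ k * b) * (b * b ^ (M + 2 * D)) :=
          Nat.mul_le_mul_right _ (Nat.mul_le_mul_left _ (by omega))
      _ = b ^ (k + 1 + 1 + (M + 2 * D)) := by ring
      _ ≤ b ^ (2 * S.card + N + M + k + 2 * D + 5) := Nat.pow_le_pow_right hB1 (by omega)

end Pool.Agent.T9h21.SE
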